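import Pool.Agent.FCH.StmtsW2

set_option autoImplicit false

namespace Pool.Agent.FCH.H83

open Pool.Agent.LCI Pool.Agent.DFO Pool.Agent.QMK
open scoped BigOperators

theorem wqm (h1 : FclStmt) (h2 : WnrStmt) (h3 : WfgStmt) (h4 : WlbStmt) (h5 : WglStmt)
    (h6 : LiqStmt) (h7 : LceStmt) : WqmStmt := by
  intro k R K _ _ _ _ _ _ _ _ _ _ n F l g m a c hl hg hm hklt hlct
  obtain ⟨kb, K', _, _, _, _, _, _, _, _, F', hac, hB, Z, hZf, hZR, hZ⟩ :=
    h1 k R K n F l g m a c hl hg hm hklt hlct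
  classical
  have := hac
  have : CharZero kb := charZero_of_injective_algebraMap (algebraMap k kb).injective
  have hr : ∀ x : K', ∃ r : R, r ≠ 0 ∧ (x ∈ R1 k R K kb K' → x ≠ 0 →
      ∃ b ∈ R1 k R K kb K', x * b = algebraMap K K' (algebraMap R K r)) := by
    intro x
    by_cases hx : x ∈ R1 k R K kb K' ∧ x ≠ 0
    · obtain ⟨r, hr0, b, hb, hxb⟩ := h2 k R K kb K' hB.algk x hx.1 hx.2
      exact ⟨r, hr0, fun _ _ => ⟨b, hb, hxb⟩⟩
    · exact ⟨1, one_ne_zero, fun h h' => absurd ⟨h, h'⟩ hx⟩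
  choose r hr0 hr using hr
  let W : Finset K' := hZf.toFinset.biUnion (fun e => Finset.univ.image e)
  let P₀ : R := ∏ x ∈ W, r x
  have hP0 : P₀ ≠ 0 := Finset.prod_ne_zero_iff.mpr (fun x _ => hr0 x)
  refine ⟨P₀, hP0, ?_⟩
  intro Y hY v hv
  obtain ⟨⟨v', hv'⟩, hZv⟩ := hZ v hv
  obtain ⟨e, heZ, hem⟩ := hZv v' hv'
  refine ⟨hv.1, ?_⟩
  intro b y P I hcrd
  have hump := hY v b y P I hcrd
  obtain ⟨_, hN, hL, _⟩ := hcrd
  obtain ⟨O', y', hBy, hFO', hLP, hRO', hUmp⟩ :=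
    h4 k R K kb K' n F F' (Y.B b) v v' y P I hB hv' (Y.base b) hN hL
  obtain ⟨R₀, hR₀fg, hR₀fr⟩ := h3 k R K kb K' n F F' m hB hm
  have hnngO : Nng (ctr (Y.B b) v) v := (h7 k R K (Y.B b) v (Y.base b) hN).2.2.1
  have key : ∀ i, ∃ b' ∈ R1 k R K kb K',
      e i * b' = algebraMap K K' (algebraMap R K P₀) := by
    intro i
    have heiR : e i ∈ R1 k R K kb K' := hZR e heZ i
    have hei0 : e i ≠ 0 := hem.1 i
    have hiW : e i ∈ W := by
      refine Finset.mem_biUnion.mpr ⟨e, hZf.mem_toFinset.mpr heZ, ?_⟩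
      exact Finset.mem_image.mpr ⟨i, Finset.mem_univ i, rfl⟩
    obtain ⟨b', hb', hxb⟩ := hr (e i) heiR hei0
    have hP : P₀ = r (e i) * ∏ x ∈ W.erase (e i), r x := (Finset.mul_prod_erase W r hiW).symm
    refine ⟨b' * algebraMap K K' (algebraMap R K (∏ x ∈ W.erase (e i), r x)), ?_, ?_⟩
    · refine mul_mem hb' ?_
      exact Algebra.subset_adjoin ⟨_, rfl⟩
    · rw [hP, map_mul, map_mul, ← mul_assoc, hxb]
  choose b' hb' hmul using key
  have hg5 := h5 kb K' n R₀ O' y' P I v' e b' (fun _ => algebraMap K K' (algebraMap R K P₀))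
    hR₀fg hR₀fr hFO' hLP hL.sub hem
    (fun i => ⟨hRO' _ (hZR e heZ i), hRO' _ (hb' i), hmul i, hUmp _ hump⟩)
  obtain ⟨hPI, hzero, hbd⟩ := hg5
  refine ⟨hPI, ?_⟩
  subst hPI
  refine h6 k K n (ctr (Y.B b) v) y P v hL hnngO ?_
  intro i f hf hdf
  have hyi : y.x i ≠ 0 := by
    intro h0
    have := y.dual i i
    rw [h0, map_zero, if_pos rfl] at this
    exact one_ne_zero this.symm
  have hf' : algebraMap K K' f ≠ 0 := by
    rw [Ne, map_eq_zero]; exact hf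
  have hdf' : y'.d i (algebraMap K K' f) ≠ 0 := by
    rw [hBy.frd, Ne, map_eq_zero]; exact hdf
  have h := hbd i (algebraMap K K' f) hf' hdf'
  rw [hBy.frd, hBy.frx, hv' f hf, hv' _ hyi, hv' _ hdf] at h
  exact h

end Pool.Agent.FCH.H83
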